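import Pool.Agent.H877R3.HSC.Decode

/-!
# Hereditary structural completeness of structural completions of tabular logics is decidable

There is an algorithm (a computable function on lists of natural numbers) which, given the
operation tables of a finite Heyting algebra `A`, decides whether the structural completion of the
deductive system `⟨L(A), MP⟩` is hereditarily structurally complete.
-/

namespace Pool.Agent.Results.MP_d44404_lc.Decidable

open Pool.Agent.H877R3.HSC

theorem result :
    ∃ f : List ℕ → Bool, Computable f ∧
      ∀ (A : Type) [HeytingAlgebra A] (n : ℕ) (e : A ≃ Fin n),
        f (tables e) = true ↔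
          (logicSystem A).completion.HereditarilyStructurallyComplete := by
  obtain ⟨f, hf, h⟩ := critN_computable
  refine ⟨f, hf, fun A _ n e => ?_⟩
  rw [h, critN_iff e, ← hsc_iff_crit e]

end Pool.Agent.Results.MP_d44404_lc.Decidable
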